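import Pool.Agent.Lib.MP_4fbe7c_an.UL.Iface

/-!
WTS: calculus of the weights.
-/

set_option autoImplicit false

open Set

namespace Pool.Agent.Lib.MP_4fbe7c_an.UL.H56

open Pool.Agent.Lib.MP_4fbe7c_an.SD Pool.Agent.Lib.MP_4fbe7c_an.FC
open Pool.Agent.Lib.MP_4fbe7c_an.UL

/-- `log (b / θ)` is between zero and `b / θ - 1`. -/
lemma lamf_bounds {a₀ b θ : ℝ} (ha : 0 < a₀) (hb : b ≤ 1001 / 1000 * a₀) (h1 : a₀ ≤ θ)
    (h2 : θ ≤ b) : 1 / 1000 ≤ lamf b θ ∧ lamf b θ ≤ 1 / 500 := by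
  have hθ : 0 < θ := lt_of_lt_of_le ha h1
  have hbp : 0 < b := lt_of_lt_of_le hθ h2
  have hq : 1 ≤ b / θ := by rw [le_div_iff₀ hθ]; linarith
  have hq2 : b / θ ≤ 1001 / 1000 := by
    rw [div_le_iff₀ hθ]; nlinarith
  have hl0 : 0 ≤ Real.log (b / θ) := Real.log_nonneg hq
  have hl1 : Real.log (b / θ) ≤ b / θ - 1 := Real.log_le_sub_one_of_pos (by positivity)
  unfold lamf
  constructor <;> linarith

lemma Af_bounds {a₀ b θ : ℝ} (ha : 0 < a₀) (hb : b ≤ 1001 / 1000 * a₀) (h1 : a₀ ≤ θ)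
    (h2 : θ ≤ b) : 0 ≤ Af a₀ b θ ∧ Af a₀ b θ / θ ≤ 2 / 1000000 := by
  have hθ : 0 < θ := lt_of_lt_of_le ha h1
  have hbp : 0 < b := lt_of_lt_of_le hθ h2
  have e1 : Real.log (θ / a₀) = Real.log θ - Real.log a₀ := Real.log_div hθ.ne' ha.ne'
  have e2 : Real.log (a₀ / θ) = Real.log a₀ - Real.log θ := Real.log_div ha.ne' hθ.ne'
  have e3 : Real.log (b / θ) = Real.log b - Real.log θ := Real.log_div hbp.ne' hθ.ne'
  have u1 : Real.log (θ / a₀) ≤ θ / a₀ - 1 := Real.log_le_sub_one_of_pos (by positivity)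
  have u2 : Real.log (a₀ / θ) ≤ a₀ / θ - 1 := Real.log_le_sub_one_of_pos (by positivity)
  have u3 : Real.log (b / θ) ≤ b / θ - 1 := Real.log_le_sub_one_of_pos (by positivity)
  have u4 : 0 ≤ Real.log b - Real.log θ := by
    have := Real.log_le_log hθ h2
    linarith
  have hE : Af a₀ b θ = 1 / 1000 * (θ - a₀) + (θ - a₀) * (1 + (Real.log b - Real.log θ))
      - a₀ * (Real.log θ - Real.log a₀) := by
    unfold Af
    ring
  have m1 : a₀ * (Real.log θ - Real.log a₀) ≤ θ - a₀ := by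
    have := mul_le_mul_of_nonneg_left u1 ha.le
    rw [e1] at this
    have h : a₀ * (θ / a₀ - 1) = θ - a₀ := by field_simp
    linarith
  have m2 : a₀ * (1 - a₀ / θ) ≤ a₀ * (Real.log θ - Real.log a₀) := by
    refine mul_le_mul_of_nonneg_left ?_ ha.le
    rw [e2] at u2
    linarith
  have hd : 0 ≤ θ - a₀ := by linarith
  constructor
  · rw [hE]
    have := mul_nonneg hd u4
    nlinarith
  · rw [div_le_iff₀ hθ, hE]
    have hs : a₀ * (1 - a₀ / θ) = (θ - a₀) * (a₀ / θ) := by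
      field_simp
    have m3 : (θ - a₀) * (Real.log b - Real.log θ) ≤ (θ - a₀) * (b / θ - 1) := by
      refine mul_le_mul_of_nonneg_left ?_ hd
      rw [e3] at u3
      exact u3
    have m4 : (b - a₀) / θ ≤ 1 / 1000 := by
      rw [div_le_iff₀ hθ]
      linarith
    have m5 : 1 / 1000 * (θ - a₀) + (θ - a₀) * (1 + (Real.log b - Real.log θ))
      - a₀ * (Real.log θ - Real.log a₀) ≤ (θ - a₀) * (1 / 1000 + (b - a₀) / θ) := by
      have : (θ - a₀) * (1 / 1000 + (b - a₀) / θ) =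
          1 / 1000 * (θ - a₀) + (θ - a₀) + (θ - a₀) * (b / θ - 1) - (θ - a₀) * (a₀ / θ) := by
        field_simp
        ring
      rw [this]
      linarith
    have m6 : (θ - a₀) * (1 / 1000 + (b - a₀) / θ) ≤ (θ - a₀) * (1 / 500) :=
      mul_le_mul_of_nonneg_left (by linarith) hd
    linarith

lemma hasDerivAt_lamf {b θ : ℝ} (hb : 0 < b) (hθ : 0 < θ) :
    HasDerivAt (lamf b) (-(1 / θ)) θ := by
  have h1 : HasDerivAt (fun x : ℝ => 1 / 1000 + (Real.log b - Real.log x)) (-(1 / θ)) θ := by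
    have := ((Real.hasDerivAt_log hθ.ne').const_sub (Real.log b)).const_add (1 / 1000)
    simpa [one_div] using this
  refine h1.congr_of_eventuallyEq ?_
  filter_upwards [lt_mem_nhds hθ] with x hx
  unfold lamf
  rw [Real.log_div hb.ne' hx.ne']

lemma hasDerivAt_Af {a₀ b θ : ℝ} (hb : 0 < b) (hθ : 0 < θ) :
    HasDerivAt (Af a₀ b) (lamf b θ) θ := by
  have h1 : HasDerivAt (fun x : ℝ => x * Real.log x) (Real.log θ + 1) θ :=
    Real.hasDerivAt_mul_log hθ.ne'
  have h2 : HasDerivAt (fun x : ℝ => (1 + 1 / 1000 + Real.log b) * (x - a₀))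
      ((1 + 1 / 1000 + Real.log b) * 1) θ :=
    ((hasDerivAt_id θ).sub_const a₀).const_mul _
  have h3 := (h2.sub h1).add_const (a₀ * Real.log a₀)
  have e : (1 + 1 / 1000 + Real.log b) * 1 - (Real.log θ + 1) = lamf b θ := by
    unfold lamf
    rw [Real.log_div hb.ne' hθ.ne']
    ring
  rw [e] at h3
  exact h3

lemma hasDerivAt_Qk (c : ℕ) (r : ℕ → ℝ) (k : ℕ) {b θ : ℝ} (hb : 0 < b) (hθ : 0 < θ) :
    HasDerivAt (fun x => Qk c r k (lamf b x)) (r k / θ * Qk c r k (lamf b θ)) θ := by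
  have h1 := hasDerivAt_lamf hb hθ
  have h2 : HasDerivAt (fun x => -(lamf b x * r k)) (-(-(1 / θ) * r k)) θ :=
    (h1.mul_const (r k)).neg
  have h3 := (h2.exp).const_mul (1 - kap c k * r k - 1 / 50000 * r k ^ 2)
  have e : (1 - kap c k * r k - 1 / 50000 * r k ^ 2) *
      (Real.exp (-(lamf b θ * r k)) * -(-(1 / θ) * r k)) = r k / θ * Qk c r k (lamf b θ) := by
    unfold Qk
    ring
  rw [e] at h3
  exact h3

/-- Derivative of `θ Λ_k`. -/
lemma hasDerivAt_Lm (c : ℕ) (r : ℕ → ℝ) (k : ℕ) {b θ : ℝ} (hb : 0 < b) (hθ : 0 < θ)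
    (h : (k = 0 ∧ r k = 1) ∨ (k ≠ 0 ∧ 0 < r k) ∨ r k = 0) :
    HasDerivAt (fun x => x * Lm r (etaf c r (lamf b x)) k) (etaf c r (lamf b θ) k * r k) θ := by
  rcases h with ⟨rfl, h1⟩ | ⟨h0, h1⟩ | h0
  · have e : (fun x => x * Lm r (etaf c r (lamf b x)) 0) = fun x => x * 1 := by
      funext x
      simp only [Lm, etaf, if_true, h1]
      norm_num
    rw [e, h1]
    have : etaf c r (lamf b θ) 0 * 1 = 1 * 1 := by simp [etaf]
    rw [this]
    exact (hasDerivAt_id θ).mul_const 1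
  · have hr1 : (1 + r k) ≠ 0 := by positivity
    have e : (fun x => x * Lm r (etaf c r (lamf b x)) k) =
        fun x => x * (1 - Qk c r k (lamf b x) / (1 + r k)) := by
      funext x
      simp only [Lm, etaf, if_neg h0]
      field_simp
      ring
    rw [e]
    have h2 := (hasDerivAt_id θ).mul
      (((hasDerivAt_Qk c r k hb hθ).div_const (1 + r k)).const_sub 1)
    have e2 : 1 * (1 - Qk c r k (lamf b θ) / (1 + r k)) +
        id θ * -(r k / θ * Qk c r k (lamf b θ) / (1 + r k)) =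
        etaf c r (lamf b θ) k * r k := by
      simp only [etaf, if_neg h0, id]
      field_simp
      ring
    rw [← e2]
    exact h2
  · have e : (fun x => x * Lm r (etaf c r (lamf b x)) k) = fun _ => (0 : ℝ) := by
      funext x
      simp [Lm, h0]
    rw [e, h0, mul_zero]
    exact hasDerivAt_const θ 0

lemma Lm_anti {n c : ℕ} {r : ℕ → ℝ} {lam : ℝ} {η : ℕ → ℝ} (hp : Par n c lam r η) {k : ℕ}
    (hk : k ≤ n) : Lm r η (k + 1) ≤ Lm r η k := by
  have hR := hp.rts
  have hpos : ∀ j, j ≤ n → 0 ≤ η j := by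
    intro j hj
    rcases Nat.eq_zero_or_pos j with rfl | h
    · rw [hp.eta0]; norm_num
    · exact (hp.etab j h hj).1
  have hrk : 0 < r k := hR.rpos k hk
  rcases Nat.lt_or_ge k n with hlt | hge
  · have hr1 : 0 < r (k + 1) := hR.rpos (k + 1) hlt
    have hre : r (k + 1) ≤ r k := hR.ranti k hk
    have hη : η (k + 1) ≤ η k := by
      rcases Nat.eq_zero_or_pos k with rfl | h
      · rw [hp.eta0]
        have := (hp.etab 1 le_rfl (by omega)).2
        linarith
      · exact hp.etaanti k h hlt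
    have h1 := hpos (k + 1) hlt
    unfold Lm
    rw [div_le_div_iff₀ (by linarith) (by linarith)]
    have h2 : (1 + η (k + 1)) * r (k + 1) * (1 + r k) ≤ (1 + η k) * r (k + 1) * (1 + r k) := by
      apply mul_le_mul_of_nonneg_right _ (by linarith)
      apply mul_le_mul_of_nonneg_right _ hr1.le
      linarith
    have h3 : (1 + η k) * r (k + 1) * (1 + r k) ≤ (1 + η k) * r k * (1 + r (k + 1)) := by
      have h4 : (1 + η k) * (r (k + 1) * (1 + r k)) ≤ (1 + η k) * (r k * (1 + r (k + 1))) := by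
        apply mul_le_mul_of_nonneg_left _ (by have := hpos k hk; linarith)
        nlinarith
      nlinarith
    linarith
  · have hkn : k = n := le_antisymm hk hge
    subst hkn
    have e : Lm r η (k + 1) = 0 := by simp [Lm, hR.rlast]
    rw [e]
    unfold Lm
    have := hpos k le_rfl
    positivity

theorem wts (hE : EtaStatement) : WtsStatement := by
  intro n c r a₀ b hR ha hb θ h1 h2
  have hθ : 0 < θ := lt_of_lt_of_le ha h1
  have hbp : 0 < b := lt_of_lt_of_le hθ h2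
  have hl := lamf_bounds ha hb h1 h2
  have hp := hE n c r (lamf b θ) hR hl.1 hl.2
  have hside : ∀ k, k ≤ n + 1 → (k = 0 ∧ r k = 1) ∨ (k ≠ 0 ∧ 0 < r k) ∨ r k = 0 := by
    intro k hk
    rcases Nat.eq_zero_or_pos k with rfl | h
    · exact Or.inl ⟨rfl, hR.r0⟩
    · rcases Nat.lt_or_ge k (n + 1) with hlt | hge
      · exact Or.inr (Or.inl ⟨h.ne', hR.rpos k (by omega)⟩)
      · have : k = n + 1 := by omega
        subst this
        exact Or.inr (Or.inr hR.rlast)
  refine ⟨hl, Af_bounds ha hb h1 h2, hasDerivAt_Af hbp hθ, ?_, ?_, ?_⟩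
  · intro k hk
    unfold bet
    exact mul_nonneg hθ.le (sub_nonneg.2 (Lm_anti hp hk))
  · have e : ∑ k ∈ Finset.range (n + 1), bet c r b k θ =
        θ * ∑ k ∈ Finset.range (n + 1), (Lm r (etaf c r (lamf b θ)) k
          - Lm r (etaf c r (lamf b θ)) (k + 1)) := by
      rw [Finset.mul_sum]
      rfl
    rw [e, Finset.sum_range_sub']
    have e0 : Lm r (etaf c r (lamf b θ)) 0 = 1 := by
      simp only [Lm, etaf, if_true, hR.r0]
      norm_num
    have e1 : Lm r (etaf c r (lamf b θ)) (n + 1) = 0 := by simp [Lm, hR.rlast]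
    rw [e0, e1]
    ring
  · intro k hk
    have d1 := hasDerivAt_Lm c r k hbp hθ (hside k (by omega))
    have d2 := hasDerivAt_Lm c r (k + 1) hbp hθ (hside (k + 1) (by omega))
    have d := d1.sub d2
    have e : (fun x => x * Lm r (etaf c r (lamf b x)) k) -
        (fun x => x * Lm r (etaf c r (lamf b x)) (k + 1)) = bet c r b k := by
      funext x
      simp only [Pi.sub_apply, bet]
      ring
    rw [e] at d
    exact d

end Pool.Agent.Lib.MP_4fbe7c_an.UL.H56
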